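import Pool.Agent.H91.LF.Defs2

/-!
Row MUF of the board `lf_modules`: from the Liouville function in residue classes to the Möbius
function.
-/

set_option autoImplicit false

open Finset Filter Topology

namespace Pool.Agent.H22.LF

open Pool.Agent.H91.LF
open Pool.Agent.H24.MR (lam)

theorem sum_wt_le (m T : ℕ) : ∑ t ∈ box m T, wt t ≤ (1 + Real.log T) ^ m := by
  have h1 : ∑ t ∈ box m T, wt t = (∑ i ∈ Finset.Icc 1 T, (1 : ℝ) / i) ^ m := by
    unfold Pool.Agent.H91.LF.box wt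
    rw [← Finset.prod_univ_sum (fun _ : Fin m => Finset.Icc 1 T) (fun _ i => (1 : ℝ) / i)]
    rw [Finset.prod_const, Finset.card_univ, Fintype.card_fin]
  rw [h1]
  have h3 : ∑ i ∈ Finset.Icc 1 T, (1 : ℝ) / i = ((harmonic T : ℚ) : ℝ) := by
    rw [harmonic_eq_sum_Icc]
    push_cast
    simp [one_div]
  rw [h3]
  refine pow_le_pow_left₀ ?_ (harmonic_le_one_add_log T) m
  rw [← h3]
  exact Finset.sum_nonneg fun i _ => by positivity

theorem dvd_iff_of_modEq {p z z' : ℤ} (h : z ≡ z' [ZMOD p]) : p ∣ z ↔ p ∣ z' := by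
  rw [← Int.modEq_zero_iff_dvd, ← Int.modEq_zero_iff_dvd]
  exact ⟨fun h1 => h.symm.trans h1, fun h1 => h.trans h1⟩

theorem sqw_congr {w : ℕ} {z z' : ℤ} (h : z ≡ z' [ZMOD ((w.factorial ^ 2 : ℕ) : ℤ)]) :
    sqw w z = sqw w z' := by
  have key : (∀ p ∈ (Finset.Icc 1 w).filter Nat.Prime, ¬ ((p : ℤ) ^ 2 ∣ z)) ↔
      (∀ p ∈ (Finset.Icc 1 w).filter Nat.Prime, ¬ ((p : ℤ) ^ 2 ∣ z')) := by
    refine forall₂_congr ?_
    intro p hp
    have hp0 := Finset.mem_filter.1 hp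
    have hp2 := Finset.mem_Icc.1 hp0.1
    have hp1 : (p : ℤ) ^ 2 ∣ ((w.factorial ^ 2 : ℕ) : ℤ) := by
      have h2 : p ^ 2 ∣ w.factorial ^ 2 :=
        pow_dvd_pow_of_dvd (Nat.dvd_factorial (by omega) hp2.2) 2
      exact_mod_cast h2
    rw [dvd_iff_of_modEq (h.of_dvd hp1)]
  unfold sqw
  simp only [key]

theorem abs_sqw_le (w : ℕ) (n : ℤ) : |sqw w n| ≤ 1 := by
  unfold sqw
  split_ifs <;> simp

theorem frm_congr {m : ℕ} {a : ℤ} {b : Fin m → ℤ} {n n' : ℤ} {t t' : Fin m → ℤ} {M : ℤ}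
    (hn : n ≡ n' [ZMOD M]) (ht : ∀ l, t l ≡ t' l [ZMOD M]) :
    frm a b n t ≡ frm a b n' t' [ZMOD M] := by
  rw [Int.modEq_iff_dvd] at hn ⊢
  have h1 : frm a b n' t' - frm a b n t = (n' - n) + ∑ l, b l * (t' l - t l) := by
    unfold frm
    simp only [mul_sub, Finset.sum_sub_distrib]
    ring
  rw [h1]
  refine dvd_add hn (Finset.dvd_sum fun l _ => Dvd.dvd.mul_left ?_ _)
  exact Int.modEq_iff_dvd.1 (ht l)

theorem res_iff {W : ℕ} (hW : 0 < W) (n : ℕ) (ν : Fin W) :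
    (n : ℤ) ≡ (((ν : ℕ) : ℤ)) [ZMOD (W : ℤ)] ↔ (⟨n % W, Nat.mod_lt _ hW⟩ : Fin W) = ν := by
  rw [Int.natCast_modEq_iff, Fin.ext_iff]
  unfold Nat.ModEq
  rw [Nat.mod_eq_of_lt ν.2]

/-- Splitting a sum over natural numbers with a weight which depends on the residue class only. -/
theorem split_res {W : ℕ} (hW : 0 < W) (S : Finset ℕ) (θ : ℕ → ℝ) (θ' : Fin W → ℝ)
    (hθ : ∀ n : ℕ, ∀ ν : Fin W, (n : ℤ) ≡ (((ν : ℕ) : ℤ)) [ZMOD (W : ℤ)] → θ n = θ' ν)
    (hθ1 : ∀ n, |θ n| ≤ 1) (g : ℕ → ℝ) :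
    |∑ n ∈ S, g n * θ n| ≤
      ∑ ν : Fin W, |∑ n ∈ S.filter (fun n : ℕ => (n : ℤ) ≡ (((ν : ℕ) : ℤ)) [ZMOD (W : ℤ)]), g n| := by
  classical
  have h1 : ∑ n ∈ S, g n * θ n = ∑ ν : Fin W,
      ∑ n ∈ S.filter (fun n : ℕ => (n : ℤ) ≡ (((ν : ℕ) : ℤ)) [ZMOD (W : ℤ)]), g n * θ n := by
    rw [← Finset.sum_fiberwise S (fun n => (⟨n % W, Nat.mod_lt _ hW⟩ : Fin W))]
    refine Finset.sum_congr rfl fun ν _ => ?_
    refine Finset.sum_congr ?_ fun _ _ => rfl
    exact Finset.filter_congr fun n _ => (res_iff hW n ν).symm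
  rw [h1]
  refine le_trans (Finset.abs_sum_le_sum_abs _ _) (Finset.sum_le_sum fun ν _ => ?_)
  have h2 : ∑ n ∈ S.filter (fun n : ℕ => (n : ℤ) ≡ (((ν : ℕ) : ℤ)) [ZMOD (W : ℤ)]), g n * θ n =
      (∑ n ∈ S.filter (fun n : ℕ => (n : ℤ) ≡ (((ν : ℕ) : ℤ)) [ZMOD (W : ℤ)]), g n) * θ' ν := by
    rw [Finset.sum_mul]
    refine Finset.sum_congr rfl fun n hn => ?_
    rw [hθ n ν (Finset.mem_filter.1 hn).2]
  rw [h2, abs_mul]
  have h3 : |θ' ν| ≤ 1 := by
    have h4 := hθ (ν : ℕ) ν (Int.ModEq.refl _)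
    rw [← h4]
    exact hθ1 _
  exact mul_le_of_le_one_right (abs_nonneg _) h3

/-- Splitting a sum over a box into residue classes. -/
theorem split_box {m W : ℕ} (hW : 0 < W) (T : ℕ) (F : (Fin m → ℕ) → ℝ) :
    ∑ t ∈ box m T, F t = ∑ τ : Fin m → Fin W,
      ∑ t ∈ (box m T).filter (fun t => ∀ l, (t l : ℤ) ≡ (((τ l : ℕ) : ℤ)) [ZMOD (W : ℤ)]), F t := by
  classical
  rw [← Finset.sum_fiberwise (box m T)
    (fun t => (fun l => (⟨t l % W, Nat.mod_lt _ hW⟩ : Fin W)))]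
  refine Finset.sum_congr rfl fun τ _ => ?_
  refine Finset.sum_congr ?_ fun _ _ => rfl
  refine Finset.filter_congr fun t _ => ?_
  rw [funext_iff]
  exact forall_congr' fun l => (res_iff hW (t l) (τ l)).symm

/-- Multiplicities of odd parity, numbered. -/
theorem prod_odd {r k : ℕ} (P : Fin r → Prop) [DecidablePred P] (e : {i : Fin r // P i} ≃ Fin k)
    (f : Fin r → ℝ) :
    ∏ i ∈ Finset.univ.filter P, f i = ∏ i' : Fin k, f (e.symm i').1 := by
  rw [Equiv.prod_comp e.symm (fun i : {i : Fin r // P i} => f i.1)]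
  rw [Finset.prod_subtype (p := P) (Finset.univ.filter P) (by simp)]

open Classical in
/-- The sum over the image of `[1, N]` in the integers. -/
theorem cast_sum (N : ℕ) (P : ℤ → Prop) [DecidablePred P] (f : ℤ → ℝ) :
    ∑ n ∈ Finset.filter P (do let a ← Finset.Icc 1 N; pure (a : ℤ)), f n =
      ∑ n ∈ (Finset.Icc 1 N).filter (fun n : ℕ => P (n : ℤ)), f (n : ℤ) := by
  have h1 : (do let a ← Finset.Icc 1 N; pure (a : ℤ) : Finset ℤ) =
      (Finset.Icc 1 N).map ⟨fun n : ℕ => (n : ℤ), Nat.cast_injective⟩ := by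
    ext z
    simp [Finset.bind_def, Finset.pure_def]
  rw [h1, Finset.sum_filter, Finset.sum_map, Finset.sum_filter]
  rfl

theorem muf_main (h1 : StatementLAM) (h2 : StatementIND) (h3 : StatementMUA) : StatementMUF := by
  classical
  intro m r a b ε q n₀ j hε hj hq hspan ρ hρ
  obtain ⟨D, w0, v, hD1, hD2⟩ := h2 m r a b (fun i => Odd (ε i)) j hspan
  let e : {i : Fin r // Odd (ε i)} ≃ Fin (Fintype.card {i : Fin r // Odd (ε i)}) :=
    Fintype.equivFin _
  have hInd : Ind (fun i' => a (e.symm i').1) (fun i' => b (e.symm i').1) (e ⟨j, hj⟩) := by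
    refine ⟨D, w0, v, ?_, ?_⟩
    · intro i' hi'
      refine hD1 _ ?_ (e.symm i').2
      intro hc
      apply hi'
      rw [← Equiv.symm_apply_eq]
      exact Subtype.ext hc
    · simp only [Equiv.symm_apply_apply]
      exact hD2
  obtain ⟨w, hw⟩ := h3 m r a b ε q n₀ (ρ / (2 * 2 ^ m)) hε hq (by positivity)
  set W : ℕ := q * w.factorial ^ 2 with hWdef
  have hW : 0 < W := Nat.mul_pos hq (pow_pos (Nat.factorial_pos _) 2)
  have hWq : (q : ℤ) ∣ (W : ℤ) := by
    rw [hWdef]; push_cast; exact Dvd.intro _ rfl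
  have hWw : ((w.factorial ^ 2 : ℕ) : ℤ) ∣ (W : ℤ) := by
    rw [hWdef]; push_cast; exact Dvd.intro_left _ rfl
  have hρ' : 0 < ρ / (2 * (W : ℝ) ^ (m + 1)) := by
    have : (0 : ℝ) < W := by exact_mod_cast hW
    positivity
  have hL : ∀ z : Fin W × (Fin m → Fin W), ∃ T₀ : ℕ, ∀ T, T₀ ≤ T →
    ∃ K : ℕ, ∀ x y : ℕ, 0 < x → K * x ≤ y →
      ∑ t ∈ (box m T).filter (fun t => ∀ l, (t l : ℤ) ≡ (((z.2 l : ℕ) : ℤ)) [ZMOD (W : ℤ)]),
        wt t * ∑ N ∈ Finset.Icc x y, (1 / (N : ℝ)) *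
          |(∑ n ∈ (Finset.Icc 1 N).filter
              (fun n : ℕ => (n : ℤ) ≡ (((z.1 : ℕ) : ℤ)) [ZMOD (W : ℤ)]),
            ∏ i', lz (frm (a (e.symm i').1) (b (e.symm i').1) n (fun l => (t l : ℤ)))) / N| ≤
      ρ / (2 * (W : ℝ) ^ (m + 1)) * Real.log T ^ m * Real.log (y / x) := by
    intro z
    have h10 := h1 m _ (fun i' => a (e.symm i').1) (fun i' => b (e.symm i').1) (e ⟨j, hj⟩) W
      (((z.1 : ℕ) : ℤ)) (fun l => (((z.2 l : ℕ) : ℤ))) hW hInd _ hρ'
    simp only [cast_sum] at h10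
    exact h10
  choose T₀ hT₀ using hL
  refine ⟨max 3 (Finset.univ.sup T₀), ?_⟩
  intro T hT
  have hT3 : 3 ≤ T := le_trans (le_max_left _ _) hT
  have hTz : ∀ z, T₀ z ≤ T := fun z =>
    le_trans (Finset.le_sup (Finset.mem_univ z)) (le_trans (le_max_right _ _) hT)
  choose K hK using fun z => hT₀ z T (hTz z)
  obtain ⟨K', hK'⟩ := hw T
  refine ⟨max (max 1 K') (Finset.univ.sup K), ?_⟩
  intro x y hx hxy
  have hmul : ∀ A : ℕ, A ≤ max (max 1 K') (Finset.univ.sup K) → A * x ≤ y := fun A hA =>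
    le_trans (Nat.mul_le_mul_right x hA) hxy
  have hxy1 : x ≤ y := by
    have := hmul 1 (le_trans (le_max_left _ _) (le_max_left _ _))
    omega
  have hlog : 0 ≤ Real.log ((y : ℝ) / x) := by
    apply Real.log_nonneg
    rw [le_div_iff₀ (by exact_mod_cast hx)]
    rw [one_mul]
    exact_mod_cast hxy1
  have hlogT : 1 ≤ Real.log T := by
    rw [Real.le_log_iff_exp_le (by exact_mod_cast (by omega : 0 < T))]
    have h4 : (3 : ℝ) ≤ T := by exact_mod_cast hT3
    have h5 := Real.exp_one_lt_d9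
    linarith
  -- the comparison for fixed `t` and `N`
  have hcmp : ∀ t : Fin m → ℕ, ∀ N : ℕ,
      |(∑ n ∈ (Finset.Icc 1 N).filter (fun n => n ≡ n₀ [MOD q]),
            ∏ i, ((ArithmeticFunction.moebius
              (((n : ℤ) + (a i + ∑ l, b i l * t l)).toNat) : ℤ) : ℝ) ^ ε i) / N| ≤
      |(∑ n ∈ (Finset.Icc 1 N).filter (fun n => n ≡ n₀ [MOD q]),
            ((∏ i, ((ArithmeticFunction.moebius
              (((n : ℤ) + (a i + ∑ l, b i l * t l)).toNat) : ℤ) : ℝ) ^ ε i) -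
            (∏ i ∈ Finset.univ.filter (fun i => Odd (ε i)),
                lz (frm (a i) (b i) n (fun l => (t l : ℤ)))) *
              ∏ i, sqw w (frm (a i) (b i) n (fun l => (t l : ℤ))))) / N| +
      ∑ ν : Fin W, |(∑ n ∈ (Finset.Icc 1 N).filter
              (fun n : ℕ => (n : ℤ) ≡ (((ν : ℕ) : ℤ)) [ZMOD (W : ℤ)]),
            ∏ i', lz (frm (a (e.symm i').1) (b (e.symm i').1) n (fun l => (t l : ℤ)))) / N| := by
    intro t N
    have hsp := split_res hW (Finset.Icc 1 N)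
      (fun n : ℕ => if (n : ℤ) ≡ (n₀ : ℤ) [ZMOD (q : ℤ)] then
        ∏ i, sqw w (frm (a i) (b i) n (fun l => (t l : ℤ))) else 0)
      (fun ν : Fin W => if (((ν : ℕ) : ℤ)) ≡ (n₀ : ℤ) [ZMOD (q : ℤ)] then
        ∏ i, sqw w (frm (a i) (b i) (((ν : ℕ) : ℤ)) (fun l => (t l : ℤ))) else 0)
      (by
        intro n ν hn
        have e1 : ((n : ℤ) ≡ (n₀ : ℤ) [ZMOD (q : ℤ)]) ↔
            ((((ν : ℕ) : ℤ)) ≡ (n₀ : ℤ) [ZMOD (q : ℤ)]) :=
          ⟨fun h => (hn.of_dvd hWq).symm.trans h, fun h => (hn.of_dvd hWq).trans h⟩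
        have e2 : ∏ i, sqw w (frm (a i) (b i) n (fun l => (t l : ℤ))) =
            ∏ i, sqw w (frm (a i) (b i) (((ν : ℕ) : ℤ)) (fun l => (t l : ℤ))) :=
          Finset.prod_congr rfl fun i _ => sqw_congr
            ((frm_congr hn (fun l => Int.ModEq.refl _)).of_dvd hWw)
        show (if (n : ℤ) ≡ (n₀ : ℤ) [ZMOD (q : ℤ)] then
          ∏ i, sqw w (frm (a i) (b i) n (fun l => (t l : ℤ))) else 0) =
          (if (((ν : ℕ) : ℤ)) ≡ (n₀ : ℤ) [ZMOD (q : ℤ)] then
          ∏ i, sqw w (frm (a i) (b i) (((ν : ℕ) : ℤ)) (fun l => (t l : ℤ))) else 0)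
        by_cases hc : (n : ℤ) ≡ (n₀ : ℤ) [ZMOD (q : ℤ)]
        · rw [if_pos hc, if_pos (e1.1 hc), e2]
        · rw [if_neg hc, if_neg (fun h => hc (e1.2 h))])
      (by
        intro n
        show |(if (n : ℤ) ≡ (n₀ : ℤ) [ZMOD (q : ℤ)] then
          ∏ i, sqw w (frm (a i) (b i) n (fun l => (t l : ℤ))) else 0)| ≤ 1
        split_ifs
        · rw [Finset.abs_prod]
          exact Finset.prod_le_one (fun i _ => abs_nonneg _) (fun i _ => abs_sqw_le _ _)
        · simp)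
      (fun n => ∏ i ∈ Finset.univ.filter (fun i => Odd (ε i)),
                lz (frm (a i) (b i) n (fun l => (t l : ℤ))))
    have hfil : (Finset.Icc 1 N).filter (fun n => n ≡ n₀ [MOD q]) =
        (Finset.Icc 1 N).filter (fun n : ℕ => (n : ℤ) ≡ (n₀ : ℤ) [ZMOD (q : ℤ)]) :=
      Finset.filter_congr fun n _ => (Int.natCast_modEq_iff).symm
    have hsum : ∑ n ∈ (Finset.Icc 1 N).filter (fun n => n ≡ n₀ [MOD q]),
            (∏ i ∈ Finset.univ.filter (fun i => Odd (ε i)),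
                lz (frm (a i) (b i) n (fun l => (t l : ℤ)))) *
              ∏ i, sqw w (frm (a i) (b i) n (fun l => (t l : ℤ))) =
        ∑ n ∈ Finset.Icc 1 N, (∏ i ∈ Finset.univ.filter (fun i => Odd (ε i)),
                lz (frm (a i) (b i) n (fun l => (t l : ℤ)))) *
          (if (n : ℤ) ≡ (n₀ : ℤ) [ZMOD (q : ℤ)] then
        ∏ i, sqw w (frm (a i) (b i) n (fun l => (t l : ℤ))) else 0) := by
      rw [hfil, Finset.sum_filter]
      refine Finset.sum_congr rfl fun n _ => ?_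
      split_ifs <;> simp
    have hN : (0 : ℝ) ≤ N := Nat.cast_nonneg _
    rw [Finset.sum_sub_distrib]
    rw [hsum]
    set A : ℝ := ∑ n ∈ (Finset.Icc 1 N).filter (fun n => n ≡ n₀ [MOD q]),
            ∏ i, ((ArithmeticFunction.moebius
              (((n : ℤ) + (a i + ∑ l, b i l * t l)).toNat) : ℤ) : ℝ) ^ ε i with hA
    set B : ℝ := ∑ n ∈ Finset.Icc 1 N, (∏ i ∈ Finset.univ.filter (fun i => Odd (ε i)),
                lz (frm (a i) (b i) n (fun l => (t l : ℤ)))) *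
          (if (n : ℤ) ≡ (n₀ : ℤ) [ZMOD (q : ℤ)] then
        ∏ i, sqw w (frm (a i) (b i) n (fun l => (t l : ℤ))) else 0) with hB
    have h6 : |A / N| ≤ |(A - B) / N| + |B / N| := by
      have : A / N = (A - B) / N + B / N := by ring
      rw [this]
      exact abs_add_le _ _
    have h7 : |B / N| ≤ ∑ ν : Fin W, |(∑ n ∈ (Finset.Icc 1 N).filter
              (fun n : ℕ => (n : ℤ) ≡ (((ν : ℕ) : ℤ)) [ZMOD (W : ℤ)]),
            ∏ i', lz (frm (a (e.symm i').1) (b (e.symm i').1) n (fun l => (t l : ℤ)))) / N| := by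
      rw [abs_div, abs_of_nonneg hN]
      refine le_trans (div_le_div_of_nonneg_right hsp hN) ?_
      rw [Finset.sum_div]
      refine Finset.sum_le_sum fun ν _ => ?_
      rw [abs_div, abs_of_nonneg hN]
      refine div_le_div_of_nonneg_right (le_of_eq ?_) hN
      congr 1
      refine Finset.sum_congr rfl fun n _ => ?_
      exact prod_odd (fun i => Odd (ε i)) e (fun i => lz (frm (a i) (b i) n (fun l => (t l : ℤ))))
    linarith
  have hwt : ∀ t : Fin m → ℕ, 0 ≤ wt t := fun t => Finset.prod_nonneg fun l _ => by positivity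
  calc ∑ t ∈ Fintype.piFinset (fun _ : Fin m => Finset.Icc 1 T),
        (∏ l, (1 : ℝ) / t l) * ∑ N ∈ Finset.Icc x y, (1 / (N : ℝ)) *
          |(∑ n ∈ (Finset.Icc 1 N).filter (fun n => n ≡ n₀ [MOD q]),
            ∏ i, ((ArithmeticFunction.moebius
              (((n : ℤ) + (a i + ∑ l, b i l * t l)).toNat) : ℤ) : ℝ) ^ ε i) / N|
      ≤ ∑ t ∈ box m T, (wt t * (∑ N ∈ Finset.Icc x y, (1 / (N : ℝ)) *
        |(∑ n ∈ (Finset.Icc 1 N).filter (fun n => n ≡ n₀ [MOD q]),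
            ((∏ i, ((ArithmeticFunction.moebius
              (((n : ℤ) + (a i + ∑ l, b i l * t l)).toNat) : ℤ) : ℝ) ^ ε i) -
            (∏ i ∈ Finset.univ.filter (fun i => Odd (ε i)),
                lz (frm (a i) (b i) n (fun l => (t l : ℤ)))) *
              ∏ i, sqw w (frm (a i) (b i) n (fun l => (t l : ℤ))))) / N|) +
        ∑ ν : Fin W, wt t * ∑ N ∈ Finset.Icc x y, (1 / (N : ℝ)) *
          |(∑ n ∈ (Finset.Icc 1 N).filter
              (fun n : ℕ => (n : ℤ) ≡ (((ν : ℕ) : ℤ)) [ZMOD (W : ℤ)]),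
            ∏ i', lz (frm (a (e.symm i').1) (b (e.symm i').1) n (fun l => (t l : ℤ)))) / N|) := by
        refine Finset.sum_le_sum fun t _ => ?_
        rw [← Finset.mul_sum, ← mul_add]
        refine mul_le_mul_of_nonneg_left ?_ (hwt t)
        rw [Finset.sum_comm, ← Finset.sum_add_distrib]
        refine Finset.sum_le_sum fun N _ => ?_
        rw [← Finset.mul_sum, ← mul_add]
        exact mul_le_mul_of_nonneg_left (hcmp t N) (by positivity)
    _ ≤ (∑ t ∈ box m T, wt t * (ρ / (2 * 2 ^ m) * Real.log (y / x))) +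
        ∑ ν : Fin W, ∑ τ : Fin m → Fin W,
          (ρ / (2 * (W : ℝ) ^ (m + 1)) * Real.log T ^ m * Real.log (y / x)) := by
        rw [Finset.sum_add_distrib]
        refine add_le_add ?_ ?_
        · refine Finset.sum_le_sum fun t ht => mul_le_mul_of_nonneg_left ?_ (hwt t)
          exact hK' x y hx (hmul K' (le_trans (le_max_right _ _) (le_max_left _ _))) t ht
        · rw [Finset.sum_comm]
          refine Finset.sum_le_sum fun ν _ => ?_
          rw [split_box hW]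
          refine Finset.sum_le_sum fun τ _ => ?_
          exact hK (ν, τ) x y hx
            (hmul _ (le_trans (Finset.le_sup (Finset.mem_univ (ν, τ))) (le_max_right _ _)))
    _ ≤ ρ * Real.log T ^ m * Real.log (y / x) := by
        rw [← Finset.sum_mul]
        simp only [Finset.sum_const, Finset.card_univ, Fintype.card_fin, Fintype.card_fun,
          nsmul_eq_mul]
        have hWr : (0 : ℝ) < W := by exact_mod_cast hW
        have e1 : (W : ℝ) * (((W ^ m : ℕ) : ℝ) *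
            (ρ / (2 * (W : ℝ) ^ (m + 1)) * Real.log T ^ m * Real.log (y / x))) =
            ρ / 2 * Real.log T ^ m * Real.log (y / x) := by
          push_cast
          rw [pow_succ]
          field_simp
        rw [e1]
        have e2 : ∑ t ∈ box m T, wt t ≤ 2 ^ m * Real.log T ^ m := by
          refine le_trans (sum_wt_le m T) ?_
          rw [← mul_pow]
          exact pow_le_pow_left₀ (by linarith) (by linarith) m
        have e3 : (∑ t ∈ box m T, wt t) * (ρ / (2 * 2 ^ m) * Real.log (y / x)) ≤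
            (2 ^ m * Real.log T ^ m) * (ρ / (2 * 2 ^ m) * Real.log (y / x)) :=
          mul_le_mul_of_nonneg_right e2 (by positivity)
        have e4 : (2 ^ m * Real.log T ^ m) * (ρ / (2 * 2 ^ m) * Real.log (y / x)) =
            ρ / 2 * Real.log T ^ m * Real.log (y / x) := by
          field_simp
        rw [e4] at e3
        linarith

end Pool.Agent.H22.LF
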